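import Pool.Agent.helper19.AR.Defs2

namespace Pool.Agent.helper19.AR

theorem PDe_mem_col {α β : Type} (S : Sys α β) (A : Finset α) (a : β) :
    a ∈ col S A ↔ a ∈ S.C ∧ ∃ e ∈ S.E a, ∀ x ∈ e, x ∈ A := by
  classical
  unfold col
  rw [Finset.mem_filter]

/-- the alive strand colours have an edge of the strand -/
theorem PDe_edge {α β : Type} [DecidableEq α] [DecidableEq β] (r M : ℕ)
    (S : Sys α β) (v : ℕ → ℕ → α) (c : ℕ → ℕ → β)
    (N : ℕ → ℕ → Finset α) (hL : Lay r M S v c N) (j i : ℕ) (hj : j < M) (hi : i < r)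
    (B : Finset α) (h : c j i ∈ col S B) : v j i ∈ B ∧ ∃ w ∈ N j i, w ∈ B := by
  rw [PDe_mem_col] at h
  obtain ⟨_, e, he, hB⟩ := h
  rw [hL.c_E j hj i hi] at he
  obtain ⟨w, hw, rfl⟩ := he
  exact ⟨hB _ (Sym2.mem_mk_left _ _), w, hw, hB _ (Sym2.mem_mk_right _ _)⟩

/-- a vertex without later vertices in the same or in the next layer is dead -/
theorem PDe_dead {α β : Type} [DecidableEq α] [DecidableEq β] (r M : ℕ)
    (S : Sys α β) (v : ℕ → ℕ → α) (c : ℕ → ℕ → β)
    (N : ℕ → ℕ → Finset α) (hL : Lay r M S v c N) (j i : ℕ) (hj : j < M) (hi : i < r)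
    (B : Finset α) (h1 : ∀ i' < r, i < i' → v j i' ∉ B) (h2 : ∀ i' < r, v (j + 1) i' ∉ B) :
    c j i ∉ col S B := by
  intro h
  obtain ⟨_, w, hw, hwB⟩ := PDe_edge r M S v c N hL j i hj hi B h
  rcases hL.N_sub j hj i hi w hw with ⟨i', h3, h4, rfl⟩ | ⟨i', h3, rfl⟩
  · exact h1 i' h3 h4 hwB
  · exact h2 i' h3 hwB

/-- removal of the layers `a + 1, ..., b` -/
theorem PDe_key {α β : Type} [DecidableEq α] [DecidableEq β] (r M : ℕ)
    (S : Sys α β) (v : ℕ → ℕ → α) (c : ℕ → ℕ → β)
    (N : ℕ → ℕ → Finset α) (hL : Lay r M S v c N) (B : Finset α) (a b : ℕ) (hab : a ≤ b)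
    (hb : b < M) (X : Finset α)
    (hX : ∀ x, x ∈ X ↔ x ∈ B ∧ ∃ j, a < j ∧ j ≤ b ∧ ∃ i < r, x = v j i) :
    col S B ⊆ col S (B \ X) ∪ ((Finset.Icc a b ×ˢ Finset.range r).filter
      (fun x => v x.1 x.2 ∈ B ∧ c x.1 x.2 ∈ col S B)).image (fun x => c x.1 x.2) := by
  classical
  intro t ht
  rw [Finset.mem_union]
  by_cases h : t ∈ col S (B \ X)
  · exact Or.inl h
  right
  have ht0 := ht
  rw [PDe_mem_col] at ht h
  obtain ⟨htC, e, he, heB⟩ := ht
  push Not at h
  obtain ⟨x, hx, hxX⟩ := h htC e he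
  have hxX' : x ∈ X := by
    by_contra hcon
    exact hxX (Finset.mem_sdiff.mpr ⟨heB x hx, hcon⟩)
  rw [hX] at hxX'
  obtain ⟨hxB, j, hj1, hj2, i, hi, rfl⟩ := hxX'
  obtain ⟨j', hj', i', hi', rfl⟩ := hL.clean t htC e he j (by omega) (by omega) i hi hx
  have he' := he
  rw [hL.c_E j' hj' i' hi'] at he'
  obtain ⟨w, hw, rfl⟩ := he'
  have hjj : j' = j ∨ j' + 1 = j := by
    rw [Sym2.mem_iff] at hx
    rcases hx with hx | hx
    · exact Or.inl (hL.v_inj j (by omega) i hi j' (by omega) i' hi' hx).1.symm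
    · rcases hL.N_sub j' hj' i' hi' w hw with ⟨i2, h3, h4, h5⟩ | ⟨i2, h3, h5⟩
      · rw [h5] at hx
        exact Or.inl (hL.v_inj j (by omega) i hi j' (by omega) i2 h3 hx).1.symm
      · rw [h5] at hx
        exact Or.inr (hL.v_inj j (by omega) i hi (j' + 1) (by omega) i2 h3 hx).1.symm
  rw [Finset.mem_image]
  refine ⟨(j', i'), ?_, rfl⟩
  rw [Finset.mem_filter, Finset.mem_product, Finset.mem_Icc, Finset.mem_range]
  exact ⟨⟨⟨by simp only []; omega, by simp only []; omega⟩, hi'⟩, heB _ (Sym2.mem_mk_left _ _), ht0⟩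

/-- counting of the vertices of a set in some layers -/
theorem PDe_card {α β : Type} [DecidableEq α] [DecidableEq β] (r M : ℕ)
    (S : Sys α β) (v : ℕ → ℕ → α) (c : ℕ → ℕ → β)
    (N : ℕ → ℕ → Finset α) (hL : Lay r M S v c N) (B : Finset α) (a b : ℕ) (hab : a ≤ b)
    (hb : b < M) (X : Finset α)
    (hX : ∀ x, x ∈ X ↔ x ∈ B ∧ ∃ j, a < j ∧ j ≤ b ∧ ∃ i < r, x = v j i) :
    ((Finset.Icc a b ×ˢ Finset.range r).filter (fun x => v x.1 x.2 ∈ B)).card ≤
      X.card + ((Finset.range r).filter fun i => v a i ∈ B).card := by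
  classical
  have h1 : (Finset.Icc a b ×ˢ Finset.range r).filter (fun x => v x.1 x.2 ∈ B) ⊆
      ((Finset.Ioc a b ×ˢ Finset.range r).filter (fun x => v x.1 x.2 ∈ B)) ∪
      (((Finset.range r).filter fun i => v a i ∈ B).image (fun i => (a, i))) := by
    rintro ⟨j, i⟩ hx
    rw [Finset.mem_filter, Finset.mem_product, Finset.mem_Icc, Finset.mem_range] at hx
    obtain ⟨⟨⟨h2, h3⟩, h4⟩, h5⟩ := hx
    simp only [] at h2 h3 h4 h5
    rw [Finset.mem_union]
    by_cases h6 : j = a
    · right
      rw [Finset.mem_image]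
      refine ⟨i, ?_, by rw [h6]⟩
      rw [Finset.mem_filter, Finset.mem_range]
      exact ⟨h4, h6 ▸ h5⟩
    · left
      rw [Finset.mem_filter, Finset.mem_product, Finset.mem_Ioc, Finset.mem_range]
      exact ⟨⟨⟨by simp only []; omega, h3⟩, h4⟩, h5⟩
  have h2 : ((Finset.Ioc a b ×ˢ Finset.range r).filter (fun x => v x.1 x.2 ∈ B)).card ≤ X.card := by
    apply Finset.card_le_card_of_injOn (fun x => v x.1 x.2)
    · rintro ⟨j, i⟩ hx
      rw [Finset.mem_coe, Finset.mem_filter, Finset.mem_product, Finset.mem_Ioc,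
        Finset.mem_range] at hx
      obtain ⟨⟨⟨h2, h3⟩, h4⟩, h5⟩ := hx
      rw [Finset.mem_coe, hX]
      exact ⟨h5, j, h2, h3, i, h4, rfl⟩
    · rintro ⟨j, i⟩ hx ⟨j', i'⟩ hx' hxx
      rw [Finset.mem_coe, Finset.mem_filter, Finset.mem_product, Finset.mem_Ioc,
        Finset.mem_range] at hx hx'
      simp only [] at hx hx' hxx
      obtain ⟨⟨⟨h2, h3⟩, h4⟩, h5⟩ := hx
      obtain ⟨⟨⟨h2', h3'⟩, h4'⟩, h5'⟩ := hx'
      have h6 := hL.v_inj j (by omega) i h4 j' (by omega) i' h4' hxx
      rw [h6.1, h6.2]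
  calc _ ≤ _ := Finset.card_le_card h1
    _ ≤ _ := Finset.card_union_le _ _
    _ ≤ _ := Nat.add_le_add h2 Finset.card_image_le

theorem PDe_col_empty {α β : Type} (S : Sys α β) : col S ∅ = ∅ := by
  classical
  rw [Finset.eq_empty_iff_forall_notMem]
  intro a ha
  rw [PDe_mem_col] at ha
  obtain ⟨_, e, _, h⟩ := ha
  induction e with
  | h x y => exact absurd (h x (Sym2.mem_mk_left _ _)) (Finset.notMem_empty _)

/-- module PDe: empty layers of a minimal violating set -/
theorem PDe {α β : Type} [DecidableEq α] [DecidableEq β] (r M : ℕ) (hr : 2 ≤ r)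
    (S : Sys α β) (v : ℕ → ℕ → α) (c : ℕ → ℕ → β)
    (N : ℕ → ℕ → Finset α) (hL : Lay r M S v c N) (B : Finset α) (hB : MinV S B) :
    (∀ j < M, (∀ i < r, v j i ∉ B) → ∀ j', j < j' → j' < M → ∀ i < r, v j' i ∉ B) ∧
    (∀ j, j + 1 < M → (∀ i < r, v (j + 1) i ∉ B) → (∃ i < r, v j i ∈ B) →
      ∀ a < j, 2 ≤ ((Finset.range r).filter fun i => v a i ∈ B).card) := by
  classical
  constructor
  · intro j hj hemp j' hj' hj'M i hi hmem
    set X : Finset α := B.filter (fun x => ∃ j2, j < j2 ∧ j2 ≤ M - 1 ∧ ∃ i < r, x = v j2 i) with hXd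
    have hX : ∀ x, x ∈ X ↔ x ∈ B ∧ ∃ j2, j < j2 ∧ j2 ≤ M - 1 ∧ ∃ i < r, x = v j2 i := by
      intro x
      rw [hXd, Finset.mem_filter]
    have hkey := PDe_key r M S v c N hL B j (M - 1) (by omega) (by omega) X hX
    have hcard := PDe_card r M S v c N hL B j (M - 1) (by omega) (by omega) X hX
    have hta : ((Finset.range r).filter fun i => v j i ∈ B).card = 0 := by
      rw [Finset.card_eq_zero, Finset.filter_eq_empty_iff]
      intro i hi
      exact hemp i (Finset.mem_range.mp hi)
    rw [hta, Nat.add_zero] at hcard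
    have hXB : X ⊆ B := Finset.filter_subset _ _
    have hXne : v j' i ∈ X := by
      rw [hX]
      exact ⟨hmem, j', hj', by omega, i, hi, rfl⟩
    have hXpos : 0 < X.card := Finset.card_pos.mpr ⟨_, hXne⟩
    have hsd : (B \ X).card + X.card = B.card := Finset.card_sdiff_add_card_eq_card hXB
    have hc1 := Finset.card_le_card hkey
    have hc2 := hc1.trans (Finset.card_union_le _ _)
    have hviol := hB.viol
    by_cases hD : (B \ X).Nonempty
    · have h1 : B \ X ≠ B := by
        intro h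
        rw [h] at hsd
        omega
      have h2 := hB.min (B \ X) Finset.sdiff_subset h1 hD
      have h3 : (((Finset.Icc j (M - 1) ×ˢ Finset.range r).filter
          (fun x => v x.1 x.2 ∈ B ∧ c x.1 x.2 ∈ col S B)).image (fun x => c x.1 x.2)).card ≤
          X.card := by
        refine Finset.card_image_le.trans (le_trans ?_ hcard)
        apply Finset.card_le_card
        intro x hx
        rw [Finset.mem_filter] at hx ⊢
        exact ⟨hx.1, hx.2.1⟩
      omega
    · rw [Finset.not_nonempty_iff_eq_empty] at hD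
      rw [hD, PDe_col_empty, Finset.card_empty, Nat.zero_add] at hc2
      rw [hD, Finset.card_empty, Nat.zero_add] at hsd
      have hBX : B ⊆ X := Finset.sdiff_eq_empty_iff_subset.mp hD
      set J := (Finset.Icc j (M - 1) ×ˢ Finset.range r).filter (fun x => v x.1 x.2 ∈ B) with hJ
      have hJne : J.Nonempty := by
        refine ⟨(j', i), ?_⟩
        rw [hJ, Finset.mem_filter, Finset.mem_product, Finset.mem_Icc, Finset.mem_range]
        exact ⟨⟨⟨by simp only []; omega, by simp only []; omega⟩, hi⟩, hmem⟩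
      obtain ⟨⟨j1, i1⟩, hmax1, hmax⟩ := Finset.exists_max_image J (fun x => x.1 * r + x.2) hJne
      have hm1 := hmax1
      rw [hJ, Finset.mem_filter, Finset.mem_product, Finset.mem_Icc, Finset.mem_range] at hm1
      obtain ⟨⟨⟨h2, h3⟩, h4⟩, h5⟩ := hm1
      simp only [] at h2 h3 h4 h5 hmax
      have hdead : c j1 i1 ∉ col S B := by
        apply PDe_dead r M S v c N hL j1 i1 (by omega) h4 B
        · intro i' hi' hii' hmem'
          have h6 : (j1, i') ∈ J := by
            rw [hJ, Finset.mem_filter, Finset.mem_product, Finset.mem_Icc, Finset.mem_range]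
            exact ⟨⟨⟨h2, h3⟩, hi'⟩, hmem'⟩
          have h7 := hmax _ h6
          simp only [] at h7
          omega
        · intro i' hi' hmem'
          have h8 := hBX hmem'
          rw [hX] at h8
          obtain ⟨_, j2, h9, h10, i2, h11, h12⟩ := h8
          have h13 := hL.v_inj (j1 + 1) (by omega) i' hi' j2 (by omega) i2 h11 h12
          have h6 : (j1 + 1, i') ∈ J := by
            rw [hJ, Finset.mem_filter, Finset.mem_product, Finset.mem_Icc, Finset.mem_range]
            exact ⟨⟨⟨by simp only []; omega, by simp only []; omega⟩, hi'⟩, hmem'⟩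
          have h7 := hmax _ h6
          simp only [] at h7
          rw [Nat.add_mul, Nat.one_mul] at h7
          omega
      have h3 : (((Finset.Icc j (M - 1) ×ˢ Finset.range r).filter
          (fun x => v x.1 x.2 ∈ B ∧ c x.1 x.2 ∈ col S B)).image (fun x => c x.1 x.2)).card <
          J.card := by
        refine lt_of_le_of_lt Finset.card_image_le ?_
        apply Finset.card_lt_card
        rw [Finset.ssubset_iff_of_subset]
        · refine ⟨(j1, i1), hmax1, ?_⟩
          rw [Finset.mem_filter]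
          intro h
          exact hdead h.2.2
        · intro x hx
          rw [hJ]
          rw [Finset.mem_filter] at hx ⊢
          exact ⟨hx.1, hx.2.1⟩
      omega
  · rintro j hj hemp ⟨i, hi, hmem⟩ a ha
    by_contra hcon
    set ta := ((Finset.range r).filter fun i => v a i ∈ B).card with hta
    set X : Finset α := B.filter (fun x => ∃ j2, a < j2 ∧ j2 ≤ j ∧ ∃ i < r, x = v j2 i) with hXd
    have hX : ∀ x, x ∈ X ↔ x ∈ B ∧ ∃ j2, a < j2 ∧ j2 ≤ j ∧ ∃ i < r, x = v j2 i := by
      intro x
      rw [hXd, Finset.mem_filter]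
    have hkey := PDe_key r M S v c N hL B a j (by omega) (by omega) X hX
    have hcard := PDe_card r M S v c N hL B a j (by omega) (by omega) X hX
    rw [← hta] at hcard
    have hXB : X ⊆ B := Finset.filter_subset _ _
    have hXne : v j i ∈ X := by
      rw [hX]
      exact ⟨hmem, j, ha, le_rfl, i, hi, rfl⟩
    have hXpos : 0 < X.card := Finset.card_pos.mpr ⟨_, hXne⟩
    have hsd : (B \ X).card + X.card = B.card := Finset.card_sdiff_add_card_eq_card hXB
    have hc1 := Finset.card_le_card hkey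
    have hc2 := hc1.trans (Finset.card_union_le _ _)
    have hviol := hB.viol
    set J := (Finset.Icc a j ×ˢ Finset.range r).filter (fun x => v x.1 x.2 ∈ B) with hJ
    have hJne : J.Nonempty := by
      refine ⟨(j, i), ?_⟩
      rw [hJ, Finset.mem_filter, Finset.mem_product, Finset.mem_Icc, Finset.mem_range]
      exact ⟨⟨⟨by simp only []; omega, by simp only []; omega⟩, hi⟩, hmem⟩
    obtain ⟨⟨j1, i1⟩, hmax1, hmax⟩ := Finset.exists_max_image J (fun x => x.1 * r + x.2) hJne
    have hm1 := hmax1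
    rw [hJ, Finset.mem_filter, Finset.mem_product, Finset.mem_Icc, Finset.mem_range] at hm1
    obtain ⟨⟨⟨h2, h3⟩, h4⟩, h5⟩ := hm1
    simp only [] at h2 h3 h4 h5 hmax
    have hdead : c j1 i1 ∉ col S B := by
      apply PDe_dead r M S v c N hL j1 i1 (by omega) h4 B
      · intro i' hi' hii' hmem'
        have h6 : (j1, i') ∈ J := by
          rw [hJ, Finset.mem_filter, Finset.mem_product, Finset.mem_Icc, Finset.mem_range]
          exact ⟨⟨⟨h2, h3⟩, hi'⟩, hmem'⟩
        have h7 := hmax _ h6
        simp only [] at h7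
        omega
      · intro i' hi' hmem'
        by_cases h8 : j1 = j
        · rw [h8] at hmem'
          exact hemp i' hi' hmem'
        · have h6 : (j1 + 1, i') ∈ J := by
            rw [hJ, Finset.mem_filter, Finset.mem_product, Finset.mem_Icc, Finset.mem_range]
            exact ⟨⟨⟨by simp only []; omega, by simp only []; omega⟩, hi'⟩, hmem'⟩
          have h7 := hmax _ h6
          simp only [] at h7
          rw [Nat.add_mul, Nat.one_mul] at h7
          omega
    have h3 : (((Finset.Icc a j ×ˢ Finset.range r).filter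
        (fun x => v x.1 x.2 ∈ B ∧ c x.1 x.2 ∈ col S B)).image (fun x => c x.1 x.2)).card <
        J.card := by
      refine lt_of_le_of_lt Finset.card_image_le ?_
      apply Finset.card_lt_card
      rw [Finset.ssubset_iff_of_subset]
      · refine ⟨(j1, i1), hmax1, ?_⟩
        rw [Finset.mem_filter]
        intro h
        exact hdead h.2.2
      · intro x hx
        rw [hJ]
        rw [Finset.mem_filter] at hx ⊢
        exact ⟨hx.1, hx.2.1⟩
    by_cases hD : (B \ X).Nonempty
    · have h1 : B \ X ≠ B := by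
        intro h
        rw [h] at hsd
        omega
      have h2 := hB.min (B \ X) Finset.sdiff_subset h1 hD
      omega
    · rw [Finset.not_nonempty_iff_eq_empty] at hD
      rw [hD, PDe_col_empty, Finset.card_empty, Nat.zero_add] at hc2
      rw [hD, Finset.card_empty, Nat.zero_add] at hsd
      have hBX : B ⊆ X := Finset.sdiff_eq_empty_iff_subset.mp hD
      have hta0 : ta = 0 := by
        rw [hta, Finset.card_eq_zero, Finset.filter_eq_empty_iff]
        intro i' hi' hmem'
        rw [Finset.mem_range] at hi'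
        have h8 := hBX hmem'
        rw [hX] at h8
        obtain ⟨_, j2, h9, h10, i2, h11, h12⟩ := h8
        have h13 := hL.v_inj a (by omega) i' hi' j2 (by omega) i2 h11 h12
        omega
      omega

end Pool.Agent.helper19.AR
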