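import Pool.Agent.helper19.AR.Defs2

namespace Pool.Agent.helper19.AR

theorem PDr_mem_col {α β : Type} (S : Sys α β) (A : Finset α) (a : β) :
    a ∈ col S A ↔ a ∈ S.C ∧ ∃ e ∈ S.E a, ∀ x ∈ e, x ∈ A := by
  classical
  unfold col
  rw [Finset.mem_filter]

theorem PDr_mem_segm {α : Type} [DecidableEq α] (r : ℕ) (v : ℕ → ℕ → α) (j q : ℕ) (x : α) :
    x ∈ segm r v j q ↔ ∃ j' i', j ≤ j' ∧ j' < q ∧ i' < r ∧ x = v j' i' := by
  unfold segm
  rw [Finset.mem_image]
  constructor
  · rintro ⟨⟨j', i'⟩, h1, h2⟩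
    rw [Finset.mem_product, Finset.mem_Ico, Finset.mem_range] at h1
    exact ⟨j', i', h1.1.1, h1.1.2, h1.2, h2.symm⟩
  · rintro ⟨j', i', h1, h2, h3, h4⟩
    refine ⟨(j', i'), ?_, h4.symm⟩
    rw [Finset.mem_product, Finset.mem_Ico, Finset.mem_range]
    exact ⟨⟨h1, h2⟩, h3⟩

/-- the indices of the vertices of a set `D` in a segment -/
theorem PDr_idx {α β : Type} [DecidableEq α] [DecidableEq β] (r M : ℕ)
    (S : Sys α β) (v : ℕ → ℕ → α) (c : ℕ → ℕ → β)
    (N : ℕ → ℕ → Finset α) (hL : Lay r M S v c N) (j q : ℕ) (hq : q < M) (D : Finset α)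
    (hD : D ⊆ segm r v j q) :
    ((Finset.Ico j q ×ˢ Finset.range r).filter (fun x => v x.1 x.2 ∈ D)).card = D.card ∧
    (((Finset.Ico j q ×ˢ Finset.range r).filter (fun x => v x.1 x.2 ∈ D)).image
      (fun x => c x.1 x.2)).card = D.card := by
  classical
  have h1 : ((Finset.Ico j q ×ˢ Finset.range r).filter (fun x => v x.1 x.2 ∈ D)).card = D.card := by
    have h2 : D = ((Finset.Ico j q ×ˢ Finset.range r).filter (fun x => v x.1 x.2 ∈ D)).image
        (fun x => v x.1 x.2) := by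
      apply Finset.Subset.antisymm
      · intro x hx
        have h3 := hD hx
        rw [PDr_mem_segm] at h3
        obtain ⟨j', i', h4, h5, h6, rfl⟩ := h3
        rw [Finset.mem_image]
        refine ⟨(j', i'), ?_, rfl⟩
        rw [Finset.mem_filter, Finset.mem_product, Finset.mem_Ico, Finset.mem_range]
        exact ⟨⟨⟨h4, h5⟩, h6⟩, hx⟩
      · intro x hx
        rw [Finset.mem_image] at hx
        obtain ⟨y, hy, rfl⟩ := hx
        rw [Finset.mem_filter] at hy
        exact hy.2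
    conv_rhs => rw [h2]
    rw [Finset.card_image_of_injOn]
    rintro ⟨j1, i1⟩ hx ⟨j2, i2⟩ hx' hxx
    rw [Finset.mem_coe, Finset.mem_filter, Finset.mem_product, Finset.mem_Ico,
      Finset.mem_range] at hx hx'
    simp only [] at hx hx' hxx
    obtain ⟨⟨⟨h2, h3⟩, h4⟩, h5⟩ := hx
    obtain ⟨⟨⟨h2', h3'⟩, h4'⟩, h5'⟩ := hx'
    have h6 := hL.v_inj j1 (by omega) i1 h4 j2 (by omega) i2 h4' hxx
    rw [h6.1, h6.2]
  refine ⟨h1, ?_⟩
  rw [Finset.card_image_of_injOn, h1]
  rintro ⟨j1, i1⟩ hx ⟨j2, i2⟩ hx' hxx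
  rw [Finset.mem_coe, Finset.mem_filter, Finset.mem_product, Finset.mem_Ico,
    Finset.mem_range] at hx hx'
  simp only [] at hx hx' hxx
  obtain ⟨⟨⟨h2, h3⟩, h4⟩, h5⟩ := hx
  obtain ⟨⟨⟨h2', h3'⟩, h4'⟩, h5'⟩ := hx'
  have h6 := hL.c_inj j1 (by omega) i1 h4 j2 (by omega) i2 h4' hxx
  rw [h6.1, h6.2]

/-- module PDr: replacement lemma -/
theorem PDr {α β : Type} [DecidableEq α] [DecidableEq β] (r M p q j : ℕ) (hr : 2 ≤ r)
    (hjp : j ≤ p) (hpq : p < q) (hq : q < M) (S S' : Sys α β) (v : ℕ → ℕ → α) (c : ℕ → ℕ → β)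
    (N : ℕ → ℕ → Finset α) (hL : Lay r M S v c N) (hM : IsMod r p q S S' v c)
    (hL' : Lay r M S' v c (fun j i => if p ≤ j ∧ j < q then PN r v j i else N j i))
    (B' : Finset α) (hB' : B' ⊆ S.V) (hv : B'.card ≤ (col S' B').card)
    (W : Finset α) (hW : W ⊆ segm r v j q) (hWj : ∀ i < r, v j i ∈ B' → v j i ∈ W)
    (dW : Finset α) (hdW : dW ⊆ W)
    (hal : ∀ j' i', j ≤ j' → j' < q → i' < r → v j' i' ∈ W → v j' i' ∉ dW →
      ∃ w ∈ N j' i', w ∈ W ∨ (∃ i'' < r, w = v q i'' ∧ w ∈ B'))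
    (dB : Finset α) (hdB : dB ⊆ B') (hdB' : dB ⊆ segm r v j q)
    (hdead : ∀ j' i', j ≤ j' → j' < q → i' < r → v j' i' ∈ dB →
      ∀ w ∈ (if p ≤ j' ∧ j' < q then PN r v j' i' else N j' i'), w ∉ B')
    (hdd : dW.card ≤ dB.card) :
    ((B' \ segm r v j q) ∪ W).card ≤ (col S ((B' \ segm r v j q) ∪ W)).card ∧
    ((B' \ segm r v j q) ∪ W).card + (B' ∩ segm r v j q).card = B'.card + W.card := by
  classical
  set G := segm r v j q with hG
  set B := (B' \ G) ∪ W with hB
  have hdisj : Disjoint (B' \ G) W := by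
    rw [Finset.disjoint_left]
    intro x hx hxW
    exact (Finset.mem_sdiff.mp hx).2 (hW hxW)
  have hBc : B.card = (B' \ G).card + W.card := Finset.card_union_of_disjoint hdisj
  have hB'c : (B' \ G).card + (B' ∩ G).card = B'.card := Finset.card_sdiff_add_card_inter B' G
  refine ⟨?_, by omega⟩
  -- strand colours
  set I := Finset.Ico j q ×ˢ Finset.range r with hI
  have hmemI : ∀ x : ℕ × ℕ, x ∈ I ↔ (j ≤ x.1 ∧ x.1 < q) ∧ x.2 < r := by
    intro x
    rw [hI, Finset.mem_product, Finset.mem_Ico, Finset.mem_range]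
  -- other alive colours
  set T := (col S' B').filter (fun a => ∀ x ∈ I, a ≠ c x.1 x.2) with hT
  set A1 := (I.filter (fun x => v x.1 x.2 ∈ (B' ∩ G) \ dB)).image (fun x => c x.1 x.2) with hA1
  set A2 := (I.filter (fun x => v x.1 x.2 ∈ W \ dW)).image (fun x => c x.1 x.2) with hA2
  have hA1c : A1.card = ((B' ∩ G) \ dB).card :=
    (PDr_idx r M S v c N hL j q hq _ (Finset.sdiff_subset.trans Finset.inter_subset_right)).2
  have hA2c : A2.card = (W \ dW).card :=
    (PDr_idx r M S v c N hL j q hq _ (Finset.sdiff_subset.trans hW)).2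
  have hA1c' : A1.card + dB.card = (B' ∩ G).card := by
    rw [hA1c]
    exact Finset.card_sdiff_add_card_eq_card (Finset.subset_inter hdB hdB')
  have hA2c' : A2.card + dW.card = W.card := by
    rw [hA2c]
    exact Finset.card_sdiff_add_card_eq_card hdW
  -- the colours alive in `S'`
  have h1 : col S' B' ⊆ T ∪ A1 := by
    intro a ha
    rw [Finset.mem_union]
    by_cases h : ∀ x ∈ I, a ≠ c x.1 x.2
    · left
      rw [hT, Finset.mem_filter]
      exact ⟨ha, h⟩
    · right
      push Not at h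
      obtain ⟨⟨j', i'⟩, hxI, rfl⟩ := h
      have hxI' := hxI
      rw [hmemI] at hxI'
      obtain ⟨⟨h2, h3⟩, h4⟩ := hxI'
      simp only [] at h2 h3 h4 ha
      rw [PDr_mem_col] at ha
      obtain ⟨_, e, he, heB⟩ := ha
      rw [hL'.c_E j' (by omega) i' h4] at he
      obtain ⟨w, hw, rfl⟩ := he
      have h5 := heB _ (Sym2.mem_mk_left _ _)
      have h6 := heB _ (Sym2.mem_mk_right _ _)
      rw [hA1, Finset.mem_image]
      refine ⟨(j', i'), ?_, rfl⟩
      rw [Finset.mem_filter]
      refine ⟨hxI, ?_⟩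
      rw [Finset.mem_sdiff, Finset.mem_inter]
      refine ⟨⟨h5, ?_⟩, ?_⟩
      · rw [hG, PDr_mem_segm]
        exact ⟨j', i', h2, h3, h4, rfl⟩
      · intro h7
        exact hdead j' i' h2 h3 h4 h7 w hw h6
  have h2 : (col S' B').card ≤ T.card + A1.card :=
    (Finset.card_le_card h1).trans (Finset.card_union_le _ _)
  -- the colours alive in `S`
  have h3 : T ∪ A2 ⊆ col S B := by
    intro a ha
    rw [Finset.mem_union] at ha
    rcases ha with ha | ha
    · rw [hT, Finset.mem_filter, PDr_mem_col] at ha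
      obtain ⟨⟨haC, e, he, heB⟩, hne⟩ := ha
      rw [PDr_mem_col]
      have hE : S'.E a = S.E a := by
        apply hM.E_ne
        intro j' h4 h5 i' h6
        exact hne (j', i') (by rw [hmemI]; exact ⟨⟨by simp only []; omega, h5⟩, h6⟩)
      refine ⟨hM.C_eq ▸ haC, e, hE ▸ he, ?_⟩
      intro x hx
      have hxB := heB x hx
      rw [hB, Finset.mem_union]
      by_cases hxG : x ∈ G
      · right
        have hxG' := hxG
        rw [hG, PDr_mem_segm] at hxG'
        obtain ⟨j', i', h4, h5, h6, rfl⟩ := hxG'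
        have hjj : j' = j := by
          by_cases hj0 : j' = 0
          · omega
          · obtain ⟨j2, h7, i2, h8, rfl⟩ := hL'.clean a haC e he j' (by omega) (by omega) i' h6 hx
            have hout : ¬ (j ≤ j2 ∧ j2 < q) := by
              intro h9
              exact hne (j2, i2) (by rw [hmemI]; exact ⟨h9, h8⟩) rfl
            rw [hL'.c_E j2 h7 i2 h8] at he
            obtain ⟨w, hw, rfl⟩ := he
            rw [Sym2.mem_iff] at hx
            rcases hx with hx | hx
            · have := (hL.v_inj j' (by omega) i' h6 j2 (by omega) i2 h8 hx).1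
              omega
            · rcases hL'.N_sub j2 h7 i2 h8 w hw with ⟨i3, h9, h10, h11⟩ | ⟨i3, h9, h11⟩
              · rw [h11] at hx
                have := (hL.v_inj j' (by omega) i' h6 j2 (by omega) i3 h9 hx).1
                omega
              · rw [h11] at hx
                have := (hL.v_inj j' (by omega) i' h6 (j2 + 1) (by omega) i3 h9 hx).1
                omega
        rw [hjj] at hxB ⊢
        exact hWj i' h6 hxB
      · left
        exact Finset.mem_sdiff.mpr ⟨hxB, hxG⟩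
    · rw [hA2, Finset.mem_image] at ha
      obtain ⟨⟨j', i'⟩, hx, rfl⟩ := ha
      rw [Finset.mem_filter, hmemI, Finset.mem_sdiff] at hx
      obtain ⟨⟨⟨h4, h5⟩, h6⟩, h7, h8⟩ := hx
      simp only [] at h4 h5 h6 h7 h8 ⊢
      obtain ⟨w, hw, hw2⟩ := hal j' i' h4 h5 h6 h7 h8
      rw [PDr_mem_col]
      refine ⟨hL.c_mem j' (by omega) i' h6, s(v j' i', w), ?_, ?_⟩
      · rw [hL.c_E j' (by omega) i' h6]
        exact ⟨w, hw, rfl⟩
      · intro x hx
        rw [Sym2.mem_iff] at hx
        rw [hB, Finset.mem_union]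
        rcases hx with rfl | rfl
        · exact Or.inr h7
        · rcases hw2 with hw2 | ⟨i2, h9, rfl, h10⟩
          · exact Or.inr hw2
          · left
            rw [Finset.mem_sdiff]
            refine ⟨h10, ?_⟩
            intro h11
            rw [hG, PDr_mem_segm] at h11
            obtain ⟨j3, i3, h12, h13, h14, h15⟩ := h11
            have := (hL.v_inj q (by omega) i2 h9 j3 (by omega) i3 h14 h15).1
            omega
  have h4 : Disjoint T A2 := by
    rw [Finset.disjoint_left]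
    intro a ha ha2
    rw [hT, Finset.mem_filter] at ha
    rw [hA2, Finset.mem_image] at ha2
    obtain ⟨x, hx, rfl⟩ := ha2
    rw [Finset.mem_filter] at hx
    exact ha.2 x hx.1 rfl
  have h5 : T.card + A2.card ≤ (col S B).card := by
    rw [← Finset.card_union_of_disjoint h4]
    exact Finset.card_le_card h3
  omega

end Pool.Agent.helper19.AR
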