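import Pool.Agent.helper19.AR.Defs2

namespace Pool.Agent.helper19.AR

theorem RQ_step {α β : Type} [DecidableEq α] [DecidableEq β] (r M : ℕ)
    (S : Sys α β) (v : ℕ → ℕ → α) (c : ℕ → ℕ → β)
    (N : ℕ → ℕ → Finset α) (hL : Lay r M S v c N) (j i : ℕ) (hj : j < M) (hi : i < r) :
    ∃ g, i ≤ g ∧ g < r ∧ v (j + 1) g ∈ N j i ∧
      (g = i → (∀ i', i < i' → i' < r → v j i' ∈ N j i) ∧ (∀ i' ≤ i, v (j + 1) i' ∈ N j i)) := by
  classical
  set A : Finset ℕ := (Finset.Ioo i r).filter (fun i' => v j i' ∈ N j i) with hA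
  set Bn : Finset ℕ := (Finset.range r).filter (fun i' => v (j + 1) i' ∈ N j i) with hBn
  have hsub : N j i ⊆ A.image (v j) ∪ Bn.image (v (j + 1)) := by
    intro w hw
    rcases hL.N_sub j hj i hi w hw with ⟨i', h1, h2, h3⟩ | ⟨i', h1, h2⟩
    · rw [Finset.mem_union]
      left
      rw [Finset.mem_image]
      refine ⟨i', ?_, h3.symm⟩
      rw [hA, Finset.mem_filter, Finset.mem_Ioo]
      exact ⟨⟨h2, h1⟩, h3 ▸ hw⟩
    · rw [Finset.mem_union]
      right
      rw [Finset.mem_image]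
      refine ⟨i', ?_, h2.symm⟩
      rw [hBn, Finset.mem_filter, Finset.mem_range]
      exact ⟨h1, h2 ▸ hw⟩
  have h1 : r ≤ A.card + Bn.card := by
    have h2 := Finset.card_le_card hsub
    rw [hL.N_card j hj i hi] at h2
    calc r ≤ _ := h2
      _ ≤ (A.image (v j)).card + (Bn.image (v (j + 1))).card := Finset.card_union_le _ _
      _ ≤ A.card + Bn.card := Nat.add_le_add Finset.card_image_le Finset.card_image_le
  have h2 : A.card ≤ r - i - 1 := by
    calc A.card ≤ (Finset.Ioo i r).card := Finset.card_filter_le _ _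
      _ = r - i - 1 := Nat.card_Ioo i r
  have h3 : i + 1 ≤ Bn.card := by omega
  have hne : Bn.Nonempty := Finset.card_pos.mp (by omega)
  have hg := Finset.max'_mem Bn hne
  set g := Bn.max' hne with hgdef
  have hg2 : g < r ∧ v (j + 1) g ∈ N j i := by
    have h4 := hg
    rw [hBn, Finset.mem_filter, Finset.mem_range] at h4
    exact h4
  have h5 : Bn ⊆ Finset.range (g + 1) := by
    intro x hx
    rw [Finset.mem_range]
    exact Nat.lt_succ_of_le (Finset.le_max' Bn x hx)
  have h6 : Bn.card ≤ g + 1 := by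
    have := Finset.card_le_card h5
    rwa [Finset.card_range] at this
  refine ⟨g, by omega, hg2.1, hg2.2, ?_⟩
  intro hgi
  have h7 : Bn = Finset.range (g + 1) := by
    apply Finset.eq_of_subset_of_card_le h5
    rw [Finset.card_range]
    omega
  have h8 : A = Finset.Ioo i r := by
    have h9 : Bn.card = g + 1 := by rw [h7, Finset.card_range]
    have h10 : (Finset.Ioo i r).card ≤ A.card := by
      rw [Nat.card_Ioo]
      omega
    exact Finset.eq_of_subset_of_card_le (Finset.filter_subset _ _) h10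
  constructor
  · intro i' h9 h10
    have h11 : i' ∈ A := by
      rw [h8, Finset.mem_Ioo]
      exact ⟨h9, h10⟩
    rw [hA, Finset.mem_filter] at h11
    exact h11.2
  · intro i' h9
    have h11 : i' ∈ Bn := by
      rw [h7, Finset.mem_range]
      omega
    rw [hBn, Finset.mem_filter] at h11
    exact h11.2

/-- iteration of the step function -/
def RQ_it (g : ℕ → ℕ → ℕ) (p : ℕ) : ℕ → ℕ → ℕ
  | 0, i => i
  | (k + 1), i => g (p + k) (RQ_it g p k i)

theorem RQ_it_zero (g : ℕ → ℕ → ℕ) (p i : ℕ) : RQ_it g p 0 i = i := rfl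

theorem RQ_it_succ (g : ℕ → ℕ → ℕ) (p k i : ℕ) :
    RQ_it g p (k + 1) i = g (p + k) (RQ_it g p k i) := rfl

theorem RQ_it_add (g : ℕ → ℕ → ℕ) (p k l i : ℕ) :
    RQ_it g p (k + l) i = RQ_it g (p + k) l (RQ_it g p k i) := by
  induction l with
  | zero => rfl
  | succ l ih =>
    rw [← Nat.add_assoc, RQ_it_succ, RQ_it_succ, ih, Nat.add_assoc]

theorem RQ_it_lt (g : ℕ → ℕ → ℕ) (r M : ℕ)
    (hg : ∀ j < M, ∀ i < r, i ≤ g j i ∧ g j i < r) (p : ℕ) (k i : ℕ) (hi : i < r)
    (hk : p + k ≤ M) : i ≤ RQ_it g p k i ∧ RQ_it g p k i < r := by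
  induction k with
  | zero => exact ⟨le_refl _, hi⟩
  | succ k ih =>
    rw [RQ_it_succ]
    have h1 := ih (by omega)
    have h2 := hg (p + k) (by omega) _ h1.2
    exact ⟨h1.1.trans h2.1, h2.2⟩

theorem RQ_pig (g : ℕ → ℕ → ℕ) (r M : ℕ)
    (hg : ∀ j < M, ∀ i < r, i ≤ g j i ∧ g j i < r) (p N0 : ℕ) (hM : p + N0 + r ^ 2 + 2 ≤ M) :
    ∃ k, N0 ≤ k ∧ k ≤ N0 + r ^ 2 ∧ ∀ i < r, RQ_it g p (k + 1) i = RQ_it g p k i := by
  by_contra hcon
  push Not at hcon
  have h1 : ∀ m ≤ r ^ 2 + 1, m ≤ ∑ i ∈ Finset.range r, RQ_it g p (N0 + m) i := by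
    intro m
    induction m with
    | zero => intro _; exact Nat.zero_le _
    | succ m ih =>
      intro hm
      have h2 := ih (by omega)
      have h3 : ∑ i ∈ Finset.range r, RQ_it g p (N0 + m) i <
          ∑ i ∈ Finset.range r, RQ_it g p (N0 + (m + 1)) i := by
        obtain ⟨i0, hi0, hne⟩ := hcon (N0 + m) (by omega) (by omega)
        apply Finset.sum_lt_sum
        · intro i hi
          rw [Finset.mem_range] at hi
          have h4 := RQ_it_lt g r M hg p (N0 + m) i hi (by omega)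
          exact (hg (p + (N0 + m)) (by omega) _ h4.2).1
        · refine ⟨i0, Finset.mem_range.mpr hi0, ?_⟩
          have h4 := RQ_it_lt g r M hg p (N0 + m) i0 hi0 (by omega)
          have h5 := (hg (p + (N0 + m)) (by omega) _ h4.2).1
          have h6 : RQ_it g p (N0 + (m + 1)) i0 = RQ_it g p (N0 + m + 1) i0 := rfl
          rw [h6]
          exact lt_of_le_of_ne h5 (Ne.symm hne)
      omega
  have h2 := h1 (r ^ 2 + 1) le_rfl
  have h3 : ∑ i ∈ Finset.range r, RQ_it g p (N0 + (r ^ 2 + 1)) i ≤ r * r := by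
    calc ∑ i ∈ Finset.range r, RQ_it g p (N0 + (r ^ 2 + 1)) i
        ≤ ∑ _i ∈ Finset.range r, r := by
          apply Finset.sum_le_sum
          intro i hi
          rw [Finset.mem_range] at hi
          exact (RQ_it_lt g r M hg p (N0 + (r ^ 2 + 1)) i hi (by omega)).2.le
      _ = r * r := by rw [Finset.sum_const, Finset.card_range, smul_eq_mul]
  nlinarith

theorem RQ_top {α β : Type} [DecidableEq α] [DecidableEq β] (r M : ℕ) (hr : 2 ≤ r)
    (S : Sys α β) (v : ℕ → ℕ → α) (c : ℕ → ℕ → β)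
    (N : ℕ → ℕ → Finset α) (hL : Lay r M S v c N) (j τ : ℕ) (hj : j < M) (hτ : τ < r) :
    v (j + 1) τ ∈ N j (r - 1) := by
  obtain ⟨g, h1, h2, h3, h4⟩ := RQ_step r M S v c N hL j (r - 1) hj (by omega)
  exact (h4 (by omega)).2 τ (by omega)

/-- module RQ -/
theorem RQ {α β : Type} [DecidableEq α] [DecidableEq β] (r M p N0 : ℕ) (hr : 2 ≤ r)
    (hM : p + N0 + r ^ 2 + 2 ≤ M) (S : Sys α β) (v : ℕ → ℕ → α) (c : ℕ → ℕ → β)
    (N : ℕ → ℕ → Finset α) (hL : Lay r M S v c N) :
    ∃ q, p + N0 < q ∧ q < M ∧ RR r p q v N := by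
  classical
  have hstep := fun j i hj hi => RQ_step r M S v c N hL j i hj hi
  choose! g hg1 hg2 hg3 hg4 using hstep
  have hg : ∀ j < M, ∀ i < r, i ≤ g j i ∧ g j i < r := fun j hj i hi => ⟨hg1 j i hj hi, hg2 j i hj hi⟩
  obtain ⟨k, hk1, hk2, hk3⟩ := RQ_pig g r M hg p N0 hM
  refine ⟨p + k + 1, by omega, by omega, ?_⟩
  intro j hj i hi τ hτ
  -- the path
  have hlt : ∀ m, j + m ≤ M → i ≤ RQ_it g j m i ∧ RQ_it g j m i < r :=
    fun m hm => RQ_it_lt g r M hg j m i hi hm
  have hpj : j + (p - j) = p := by omega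
  have hi' := hlt (p - j) (by omega)
  have hrel : ∀ l, RQ_it g j (p - j + l) i = RQ_it g p l (RQ_it g j (p - j) i) := by
    intro l
    rw [RQ_it_add, hpj]
  set f := RQ_it g j (p - j + k) i with hf
  have hff : g (p + k) f = f := by
    have h1 := hk3 _ hi'.2
    rw [RQ_it_succ, ← hrel] at h1
    exact h1
  have hf1 := hlt (p - j + k) (by omega)
  rw [← hf] at hf1
  have hlast := hg4 (p + k) f (by omega) hf1.2 hff
  set P : Finset α := (Finset.range (p + k + 1 - j)).image (fun m => v (j + m) (RQ_it g j m i))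
    with hP
  have hPc : P.card ≤ p + k + 1 - j := by
    calc P.card ≤ (Finset.range (p + k + 1 - j)).card := Finset.card_image_le
      _ = _ := Finset.card_range _
  have hstart : v j i ∈ P := by
    rw [hP, Finset.mem_image]
    exact ⟨0, Finset.mem_range.mpr (by omega), rfl⟩
  -- the steps of the path
  have hPs : ∀ m < p + k + 1 - j, m + 1 < p + k + 1 - j →
      ∃ w ∈ N (j + m) (RQ_it g j m i), w ∈ P := by
    intro m hm hm1
    have h1 := hlt m (by omega)
    refine ⟨v (j + m + 1) (g (j + m) (RQ_it g j m i)), hg3 (j + m) _ (by omega) h1.2, ?_⟩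
    rw [hP, Finset.mem_image]
    exact ⟨m + 1, Finset.mem_range.mpr hm1, rfl⟩
  by_cases hτf : τ ≤ f
  · refine ⟨P, hstart, by omega, ?_⟩
    intro x hx
    rw [hP, Finset.mem_image] at hx
    obtain ⟨m, hm, rfl⟩ := hx
    rw [Finset.mem_range] at hm
    refine ⟨j + m, RQ_it g j m i, by omega, by omega, (hlt m (by omega)).2, rfl, ?_⟩
    by_cases hm1 : m + 1 < p + k + 1 - j
    · obtain ⟨w, hw1, hw2⟩ := hPs m hm hm1
      exact ⟨w, hw1, Or.inl hw2⟩
    · have hm2 : m = p - j + k := by omega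
      refine ⟨v (p + k + 1) τ, ?_, Or.inr rfl⟩
      have h5 : j + m = p + k := by omega
      rw [h5, hm2]
      exact hlast.2 τ hτf
  · have hiτ : i < τ := by omega
    refine ⟨insert (v (p + k) (r - 1)) P, Finset.mem_insert_of_mem hstart, ?_, ?_⟩
    · rw [if_pos hiτ]
      calc (insert (v (p + k) (r - 1)) P).card ≤ P.card + 1 := Finset.card_insert_le _ _
        _ ≤ _ := by omega
    · intro x hx
      rw [Finset.mem_insert] at hx
      rcases hx with rfl | hx
      · refine ⟨p + k, r - 1, by omega, by omega, by omega, rfl, v (p + k + 1) τ, ?_, Or.inr rfl⟩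
        exact RQ_top r M hr S v c N hL (p + k) τ (by omega) hτ
      · rw [hP, Finset.mem_image] at hx
        obtain ⟨m, hm, rfl⟩ := hx
        rw [Finset.mem_range] at hm
        refine ⟨j + m, RQ_it g j m i, by omega, by omega, (hlt m (by omega)).2, rfl, ?_⟩
        by_cases hm1 : m + 1 < p + k + 1 - j
        · obtain ⟨w, hw1, hw2⟩ := hPs m hm hm1
          exact ⟨w, hw1, Or.inl (Finset.mem_insert_of_mem hw2)⟩
        · have hm2 : m = p - j + k := by omega
          refine ⟨v (p + k) (r - 1), ?_, Or.inl (Finset.mem_insert_self _ _)⟩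
          have h5 : j + m = p + k := by omega
          rw [h5, hm2]
          exact hlast.1 (r - 1) (by omega) (by omega)

end Pool.Agent.helper19.AR
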